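import Mathlib
import Pool.Agent.Helper398.Cyclic

set_option autoImplicit false

namespace Pool.Agent.Results.MP_ec93d3_co.CyclicLarge

/-- The set of all subset sums of A, the empty sum included. -/
def SigmaAll {G : Type} [AddCommGroup G] (A : Finset G) : Set G :=
  {s | ∃ B : Finset G, B ⊆ A ∧ ∑ b ∈ B, b = s}

/-- The values of the number of subset sums over the m-element generating subsets of G that do
not contain zero. -/
def values (G : Type) [AddCommGroup G] (m : ℕ) : Set ℕ :=
  {k | ∃ A : Finset G, A.card = m ∧ (0 : G) ∉ A ∧ AddSubgroup.closure (A : Set G) = ⊤ ∧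
    (SigmaAll A).ncard = k}

/-- The least number of subset sums of an m-element generating subset of G avoiding zero. -/
noncomputable def rhoStar (G : Type) [AddCommGroup G] (m : ℕ) : ℕ := sInf (values G m)

/-- The divisor formula: the minimum of n and of the numbers d * (1 + max(1, m + 1 - d)), where d
runs over the proper divisors of n with m + 1 ≤ 2 * d. -/
noncomputable def divisorFormula (n m : ℕ) : ℕ :=
  sInf {v | v = n ∨ ∃ d : ℕ, d ∣ n ∧ d < n ∧ m + 1 ≤ 2 * d ∧ v = d * (1 + max 1 (m + 1 - d))}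

theorem sigma_ncard {n : ℕ} (A : Finset (ZMod n)) : (SigmaAll A).ncard = A.subsetSum.card := by
  rw [← Set.ncard_coe_finset]
  congr 1
  ext s
  rw [Finset.mem_coe, Finset.mem_subsetSum_iff]
  rfl

theorem gen_of_one {n : ℕ} (A : Finset (ZMod n)) (h : (1 : ZMod n) ∈ A) :
    AddSubgroup.closure (A : Set (ZMod n)) = ⊤ := by
  rw [eq_top_iff]
  intro x _
  have h1 : (1 : ZMod n) ∈ AddSubgroup.closure (A : Set (ZMod n)) :=
    AddSubgroup.subset_closure (by simpa using h)
  obtain ⟨k, hk⟩ : ∃ k : ℤ, (k : ZMod n) = x := ZMod.intCast_surjective x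
  have h2 := AddSubgroup.zsmul_mem _ h1 k
  rw [zsmul_one, hk] at h2
  exact h2

/-- the multiples of q together with elements of the coset of 1 -/
theorem exists_gen (n q d m : ℕ) (hn : n = q * d) (hq : 2 ≤ q) (hd : 0 < d) (hm : 1 ≤ m)
    (hmd : m + 1 ≤ 2 * d) :
    ∃ A : Finset (ZMod n), A.card = m ∧ (0 : ZMod n) ∉ A ∧
      AddSubgroup.closure (A : Set (ZMod n)) = ⊤ ∧
      A.subsetSum.card ≤ d * (1 + max 1 (m + 1 - d)) := by
  obtain ⟨r, hr⟩ : ∃ r, r = max 1 (m + 1 - d) := ⟨_, rfl⟩
  obtain ⟨s, hs⟩ : ∃ s, s = m - r := ⟨_, rfl⟩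
  have hr1 : 1 ≤ r := by omega
  have hrd : r ≤ d := by omega
  have hsd : s + 1 ≤ d := by omega
  have hsr : s + r = m := by omega
  rw [← hr]
  obtain ⟨A0, hA0⟩ : ∃ A : Finset (ZMod n), A = (Finset.range s).image
    (fun i => ((q * (i + 1) : ℕ) : ZMod n)) := ⟨_, rfl⟩
  obtain ⟨A1, hA1⟩ : ∃ A : Finset (ZMod n), A = (Finset.range r).image
    (fun i => ((1 + q * i : ℕ) : ZMod n)) := ⟨_, rfl⟩
  have hlt0 : ∀ i < s, q * (i + 1) < n := by
    intro i hi
    rw [hn]
    exact Nat.mul_lt_mul_of_pos_left (by omega) (by omega)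
  have hlt1 : ∀ i < r, 1 + q * i < n := by
    intro i hi
    rw [hn]
    have : q * (i + 1) ≤ q * d := Nat.mul_le_mul_left _ (by omega)
    have e : q * (i + 1) = q * i + q := by ring
    omega
  have hn0 : 0 < n := by rw [hn]; positivity
  have hc0 : A0.card = s := by
    rw [hA0, Finset.card_image_of_injOn, Finset.card_range]
    intro i hi j hj hij
    rw [Finset.mem_coe, Finset.mem_range] at hi hj
    have := Pool.Agent.Helper398.natCast_inj_of_lt (hlt0 i hi) (hlt0 j hj) hij
    have h2 := Nat.eq_of_mul_eq_mul_left (by omega) this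
    omega
  have hc1 : A1.card = r := by
    rw [hA1, Finset.card_image_of_injOn, Finset.card_range]
    intro i hi j hj hij
    rw [Finset.mem_coe, Finset.mem_range] at hi hj
    have := Pool.Agent.Helper398.natCast_inj_of_lt (hlt1 i hi) (hlt1 j hj) hij
    have h2 := Nat.eq_of_mul_eq_mul_left (show 0 < q by omega) (show q * i = q * j by omega)
    omega
  have hdis : Disjoint A0 A1 := by
    rw [Finset.disjoint_left]
    intro a ha ha'
    rw [hA0, Finset.mem_image] at ha
    rw [hA1, Finset.mem_image] at ha'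
    obtain ⟨i, hi, rfl⟩ := ha
    obtain ⟨j, hj, hij⟩ := ha'
    rw [Finset.mem_range] at hi hj
    have h1 := Pool.Agent.Helper398.natCast_inj_of_lt (hlt1 j hj) (hlt0 i hi) hij
    have h2 : q ∣ 1 := by
      have h3 : q ∣ 1 + q * j := by rw [h1]; exact dvd_mul_right _ _
      exact (Nat.dvd_add_left (dvd_mul_right q j)).1 h3
    have := Nat.le_of_dvd (by norm_num) h2
    omega
  refine ⟨A0 ∪ A1, ?_, ?_, ?_, ?_⟩
  · rw [Finset.card_union_of_disjoint hdis, hc0, hc1, hsr]
  · intro h0
    rw [Finset.mem_union, hA0, hA1, Finset.mem_image, Finset.mem_image] at h0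
    rcases h0 with ⟨i, hi, hi2⟩ | ⟨i, hi, hi2⟩
    · rw [Finset.mem_range] at hi
      have := Pool.Agent.Helper398.natCast_inj_of_lt (hlt0 i hi) hn0 (by rw [hi2]; simp)
      have : 0 < q * (i + 1) := by positivity
      omega
    · rw [Finset.mem_range] at hi
      have := Pool.Agent.Helper398.natCast_inj_of_lt (hlt1 i hi) hn0 (by rw [hi2]; simp)
      omega
  · apply gen_of_one
    rw [Finset.mem_union, hA1, Finset.mem_image]
    right
    exact ⟨0, Finset.mem_range.2 hr1, by simp⟩
  · have := Pool.Agent.Helper398.constr_card n q d hn hd (A0 ∪ A1) A1 (by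
      intro a ha ha1
      rw [Finset.mem_union] at ha
      have ha0 := ha.resolve_right ha1
      rw [hA0, Finset.mem_image] at ha0
      obtain ⟨i, _, rfl⟩ := ha0
      exact ⟨i + 1, rfl⟩) (by
      intro a ha
      rw [hA1, Finset.mem_image] at ha
      obtain ⟨i, _, rfl⟩ := ha
      exact ⟨i, by push_cast; ring⟩)
    rw [hc1] at this
    calc _ ≤ (r + 1) * d := this
      _ = d * (1 + r) := by ring

/-- some admissible set exists for every m with 1 ≤ m < n -/
theorem exists_interval (n m : ℕ) (hm : 1 ≤ m) (hmn : m < n) :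
    ∃ A : Finset (ZMod n), A.card = m ∧ (0 : ZMod n) ∉ A ∧
      AddSubgroup.closure (A : Set (ZMod n)) = ⊤ ∧ A.subsetSum.card ≤ n := by
  have : NeZero n := ⟨by omega⟩
  refine ⟨(Finset.range m).image (fun i => ((i + 1 : ℕ) : ZMod n)), ?_, ?_, ?_, ?_⟩
  · rw [Finset.card_image_of_injOn, Finset.card_range]
    intro i hi j hj hij
    rw [Finset.mem_coe, Finset.mem_range] at hi hj
    have := Pool.Agent.Helper398.natCast_inj_of_lt (show i + 1 < n by omega)
      (show j + 1 < n by omega) hij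
    omega
  · intro h0
    rw [Finset.mem_image] at h0
    obtain ⟨i, hi, hi2⟩ := h0
    rw [Finset.mem_range] at hi
    have := Pool.Agent.Helper398.natCast_inj_of_lt (show i + 1 < n by omega)
      (show 0 < n by omega) (by rw [hi2]; simp)
    omega
  · apply gen_of_one
    rw [Finset.mem_image]
    exact ⟨0, Finset.mem_range.2 hm, by simp⟩
  · have h := Finset.card_le_univ
      ((Finset.range m).image (fun i => ((i + 1 : ℕ) : ZMod n))).subsetSum
    rwa [ZMod.card] at h

/-- For every ε > 0 and all sufficiently large n, the value of rhoStar(Z_n, m) is given by the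
divisor formula for all m < n with (16 + ε) n ≤ m². -/
theorem result (ε : ℝ) (hε : 0 < ε) : ∃ N : ℕ, ∀ n : ℕ, N ≤ n → ∀ m : ℕ, m < n →
    (16 + ε) * n ≤ (m : ℝ) ^ 2 → rhoStar (ZMod n) m = divisorFormula n m := by
  obtain ⟨N, hN⟩ := Pool.Agent.Helper398.gen_lower ε hε
  refine ⟨max N 1, fun n hn m hmn hm => ?_⟩
  have hn1 : 1 ≤ n := le_trans (le_max_right _ _) hn
  have hm1 : 1 ≤ m := by
    by_contra hcon
    have h0 : m = 0 := by omega
    subst h0
    have h1 : (1 : ℝ) ≤ n := by exact_mod_cast hn1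
    norm_num at hm
    nlinarith
  have hne : {v | v = n ∨ ∃ d : ℕ, d ∣ n ∧ d < n ∧ m + 1 ≤ 2 * d ∧
      v = d * (1 + max 1 (m + 1 - d))}.Nonempty := ⟨n, Or.inl rfl⟩
  have hup : ∃ A : Finset (ZMod n), A.card = m ∧ (0 : ZMod n) ∉ A ∧
      AddSubgroup.closure (A : Set (ZMod n)) = ⊤ ∧ A.subsetSum.card ≤ divisorFormula n m := by
    rcases Nat.sInf_mem hne with hv | ⟨d, hd, hdn, hmd, hv⟩
    · obtain ⟨A, h1, h2, h3, h4⟩ := exists_interval n m hm1 hmn
      refine ⟨A, h1, h2, h3, ?_⟩
      unfold divisorFormula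
      rw [hv]
      exact h4
    · obtain ⟨q, hq⟩ := hd
      have hd0 : 0 < d := by omega
      have hq2 : 2 ≤ q := by
        by_contra hcon
        have : q = 0 ∨ q = 1 := by omega
        rcases this with rfl | rfl
        · rw [mul_zero] at hq; omega
        · rw [mul_one] at hq; omega
      obtain ⟨A, h1, h2, h3, h4⟩ := exists_gen n q d m (by rw [hq]; ring) hq2 hd0 hm1 hmd
      refine ⟨A, h1, h2, h3, ?_⟩
      unfold divisorFormula
      rw [hv]
      exact h4
  obtain ⟨A, hA1, hA2, hA3, hA4⟩ := hup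
  have hval : (values (ZMod n) m).Nonempty := ⟨_, A, hA1, hA2, hA3, rfl⟩
  apply le_antisymm
  · have h1 : rhoStar (ZMod n) m ≤ (SigmaAll A).ncard := Nat.sInf_le ⟨A, hA1, hA2, hA3, rfl⟩
    rw [sigma_ncard] at h1
    omega
  · obtain ⟨B, hB1, hB2, hB3, hB4⟩ := Nat.sInf_mem hval
    rw [sigma_ncard] at hB4
    unfold rhoStar
    rw [← hB4]
    rcases hN n (le_trans (le_max_left _ _) hn) m hm B hB1 hB2 hB3 with h | ⟨d, h1, h2, h3, h4⟩
    · have h5 : divisorFormula n m ≤ n := Nat.sInf_le (Or.inl rfl)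
      omega
    · have h5 : divisorFormula n m ≤ d * (1 + max 1 (m + 1 - d)) :=
        Nat.sInf_le (Or.inr ⟨d, h1, h2, h3, rfl⟩)
      omega

end Pool.Agent.Results.MP_ec93d3_co.CyclicLarge
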